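import Pool.Agent.MP_024ca5_nt.Mg.H20_Geom

set_option autoImplicit false
open Matrix Pool.Agent.MP_024ca5_nt.Sail

namespace Pool.Agent.Results.MP_024ca5_nt.NoUnitFace

theorem result : ∃ A : Matrix (Fin 3) (Fin 3) ℤ, A.det = 1 ∧
    Irreducible (A.charpoly.map (Int.castRingHom ℚ)) ∧
    (A.charpoly.map (Int.castRingHom ℝ)).roots.toFinset.card = 3 ∧
    ∃ x₀, x₀ ∉ eigenPlanes A ∧
      {c : ℤ | ∃ F, IsSailFace (connectedComponentIn (eigenPlanes A)ᶜ x₀) F c} = {2, 3} := by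
  obtain ⟨x₀, -, h1, h2⟩ := Pool.Agent.MP_024ca5_nt.NoUnit.distances
  obtain ⟨-, -, -, -, h3⟩ := Pool.Agent.MP_024ca5_nt.NoUnit.exists_ctx
  exact ⟨_, by decide, Pool.Agent.MP_024ca5_nt.NoUnit.irr_Y, h3, x₀, h1, h2⟩

end Pool.Agent.Results.MP_024ca5_nt.NoUnitFace
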