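import Pool.Agent.MP_024ca5_nt.Mg.SailGeom

set_option autoImplicit false
open Matrix Pool.Agent.MP_024ca5_nt.Sail

namespace Pool.Agent.Results.MP_024ca5_nt.SailFace

theorem result (A : Matrix (Fin 3) (Fin 3) ℤ)
    (hirr : Irreducible (A.charpoly.map (Int.castRingHom ℚ)))
    (hreal : (A.charpoly.map (Int.castRingHom ℝ)).roots.toFinset.card = 3)
    (C : Set (Fin 3 → ℝ))
    (hC : ∃ x₀, x₀ ∉ eigenPlanes A ∧ C = connectedComponentIn (eigenPlanes A)ᶜ x₀) :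
    ∃ (F : Set (Fin 3 → ℝ)) (c : ℤ), 2 ≤ c ∧ IsSailFace C F c ∧
      ∀ g : Matrix (Fin 3) (Fin 3) ℤ, g.det = 1 → g * A = A * g →
        (fun y => (g.map (Int.cast : ℤ → ℝ)) *ᵥ y) '' C = C →
        IsSailFace C ((fun y => (g.map (Int.cast : ℤ → ℝ)) *ᵥ y) '' F) c := by
  obtain ⟨x₀, hx₀, rfl⟩ := hC
  obtain ⟨F, c, h2, hF⟩ := sail_face A hirr hreal x₀ hx₀
  exact ⟨F, c, h2, hF, fun g hg _ hg' => face_image _ F c hF g hg hg'⟩

end Pool.Agent.Results.MP_024ca5_nt.SailFace
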